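import Mathlib

namespace Pool.Agent.Results.MP_26c808_an.Counter

open Matrix
open scoped MatrixOrder ComplexOrder

/-- `|X| = (X* X)^(1/2)`. -/
noncomputable def absM {n : ℕ} (X : Matrix (Fin n) (Fin n) ℂ) : Matrix (Fin n) (Fin n) ℂ :=
  CFC.sqrt (Xᴴ * X)

/-- Eigenvalues of a Hermitian matrix in decreasing order. -/
noncomputable def lam {n : ℕ} (X : Matrix (Fin n) (Fin n) ℂ) : Fin n → ℝ :=
  open Classical in
  if h : X.IsHermitian then fun i => h.eigenvalues₀ (Fin.cast (Fintype.card_fin n).symm i) else 0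

/-- `x` majorizes `y` (both listed in decreasing order). -/
def Maj {n : ℕ} (x y : Fin n → ℝ) : Prop :=
  (∀ k : ℕ, 1 ≤ k → k ≤ n - 1 →
    ∑ i : Fin n with i.val < k, y i ≤ ∑ i : Fin n with i.val < k, x i) ∧
  ∑ i, x i = ∑ i, y i

lemma psd_of (M C : Matrix (Fin 3) (Fin 3) ℂ) (d : Fin 3 → ℝ) (hd : ∀ i, 0 ≤ d i)
    (h : M = Cᴴ * diagonal (fun i => (d i : ℂ)) * C) : M.PosSemidef := by
  rw [h]
  refine PosSemidef.conjTranspose_mul_mul_same ?_ C
  rw [posSemidef_diagonal_iff]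
  intro i
  exact_mod_cast hd i

lemma eig_le {n : ℕ} (X : Matrix (Fin n) (Fin n) ℂ) (hX : X.IsHermitian) (c : ℝ)
    (h : ((c : ℂ) • (1 : Matrix (Fin n) (Fin n) ℂ) - X).PosSemidef) (j : Fin (Fintype.card (Fin n))) :
    hX.eigenvalues₀ j ≤ c := by
  set i : Fin n := Fintype.equivOfCardEq (Fintype.card_fin _) j with hi
  have e : hX.eigenvalues i = hX.eigenvalues₀ j := by
    unfold IsHermitian.eigenvalues
    rw [hi, Equiv.symm_apply_apply]
  rw [← e]
  have h1 := hX.mulVec_eigenvectorBasis i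
  have h2 := h.dotProduct_mulVec_nonneg (hX.eigenvectorBasis i)
  have hv : (hX.eigenvectorBasis i).ofLp ≠ 0 := by
    intro h0
    apply hX.eigenvectorBasis.orthonormal.ne_zero i
    ext k
    exact congrFun h0 k
  have h3 := dotProduct_star_self_pos_iff.2 hv
  rw [Matrix.sub_mulVec, h1, Matrix.smul_mulVec, Matrix.one_mulVec, dotProduct_sub,
    dotProduct_smul, dotProduct_smul] at h2
  have h4 : (0 : ℂ) ≤ ((c - hX.eigenvalues i : ℝ) : ℂ) *
      (star (hX.eigenvectorBasis i).ofLp ⬝ᵥ (hX.eigenvectorBasis i).ofLp) := by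
    convert h2 using 1
    simp only [smul_eq_mul, Complex.real_smul]
    push_cast
    ring
  by_contra hc
  push Not at hc
  have h5 : ((c - hX.eigenvalues i : ℝ) : ℂ) < 0 := by
    exact_mod_cast sub_neg.2 hc
  exact absurd (mul_neg_of_neg_of_pos h5 h3) (not_lt_of_ge h4)

lemma psd_of_eig_le {n : ℕ} (Y : Matrix (Fin n) (Fin n) ℂ) (hY : Y.IsHermitian) (c : ℝ)
    (h : ∀ i, hY.eigenvalues i ≤ c) :
    ((c : ℂ) • (1 : Matrix (Fin n) (Fin n) ℂ) - Y).PosSemidef := by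
  have h1 := hY.spectral_theorem
  set U : Matrix (Fin n) (Fin n) ℂ := hY.eigenvectorUnitary.1 with hU
  have hUU : U * star U = 1 := hY.eigenvectorUnitary.2.2
  have h2 : Y = U * diagonal (fun i => (hY.eigenvalues i : ℂ)) * star U := by
    conv_lhs => rw [h1]
    rfl
  have h3 : (c : ℂ) • (1 : Matrix (Fin n) (Fin n) ℂ) - Y =
      U * diagonal (fun i => ((c - hY.eigenvalues i : ℝ) : ℂ)) * Uᴴ := by
    have h4 : diagonal (fun i => ((c - hY.eigenvalues i : ℝ) : ℂ)) =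
        (c : ℂ) • (1 : Matrix (Fin n) (Fin n) ℂ) - diagonal (fun i => (hY.eigenvalues i : ℂ)) := by
      ext i j
      by_cases hij : i = j <;> simp [hij, diagonal, Matrix.one_apply]
    rw [h4, Matrix.mul_sub, Matrix.sub_mul, Matrix.mul_smul, Matrix.mul_one, Matrix.smul_mul,
      ← star_eq_conjTranspose, hUU, ← h2]
  rw [h3]
  refine PosSemidef.mul_mul_conjTranspose_same ?_ U
  rw [posSemidef_diagonal_iff]
  intro i
  exact_mod_cast sub_nonneg.2 (h i)

lemma not_maj (A B S T : Matrix (Fin 3) (Fin 3) ℂ) (p : ℕ) (c : ℝ) (x : Fin 3 → ℂ)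
    (hA : A.PosSemidef) (hS : S.PosSemidef) (hT : T.PosSemidef)
    (eS : S * S = (B * A)ᴴ * (B * A)) (eT : T * T = (A * B)ᴴ * (A * B))
    (hG : ((c : ℂ) • (1 : Matrix (Fin 3) (Fin 3) ℂ) - (A ^ 2 + S ^ p)).PosSemidef)
    (hx : (star x ⬝ᵥ (((c : ℂ) • (1 : Matrix (Fin 3) (Fin 3) ℂ) - (A ^ 2 + T ^ p)) *ᵥ x)).re < 0) :
    ¬ Maj (lam (A ^ 2 + absM (B * A) ^ (p : ℝ))) (lam (A ^ 2 + absM (A * B) ^ (p : ℝ))) := by
  have e1 : absM (B * A) = S := CFC.sqrt_unique eS hS.nonneg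
  have e2 : absM (A * B) = T := CFC.sqrt_unique eT hT.nonneg
  rw [e1, e2, CFC.rpow_natCast S p hS.nonneg, CFC.rpow_natCast T p hT.nonneg]
  have h1 : (A ^ 2 + S ^ p).IsHermitian := (hA.1.pow 2).add (hS.1.pow p)
  have h2 : (A ^ 2 + T ^ p).IsHermitian := (hA.1.pow 2).add (hT.1.pow p)
  rintro ⟨hm, -⟩
  have h3 := hm 1 le_rfl (by norm_num)
  have hf : (Finset.univ.filter fun i : Fin 3 => i.val < 1) = {0} := by decide
  rw [hf, Finset.sum_singleton, Finset.sum_singleton] at h3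
  unfold lam at h3
  rw [dif_pos h1, dif_pos h2] at h3
  have h4 := h3.trans (eig_le _ h1 c hG _)
  have h5 : ∀ i, h2.eigenvalues i ≤ c := by
    intro i
    refine le_trans ?_ h4
    unfold IsHermitian.eigenvalues
    apply h2.eigenvalues₀_antitone
    exact Nat.zero_le _
  have h6 := (psd_of_eig_le _ h2 c h5).dotProduct_mulVec_nonneg x
  exact absurd (Complex.le_def.1 h6).1 (not_le.2 hx)

lemma psdA : (!![171, 44, -92; 44, 240, 120; -92, 120, 180] : Matrix (Fin 3) (Fin 3) ℂ).PosSemidef :=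
  psd_of _ !![1, 44 / 171, -92 / 171; 0, 1, 3071 / 4888; 0, 0, 1] ![171, 39104 / 171, 24585 / 611]
    (fun i => by fin_cases i <;> simp <;> norm_num)
    (by
      ext i j
      fin_cases i <;> fin_cases j <;>
        simp [Matrix.mul_apply, Fin.sum_univ_three, Matrix.diagonal, map_ofNat] <;> norm_num)
lemma psdB3 : (!![27 / 77, -9 / 88, 9 / 44; -9 / 88, 27 / 352, -27 / 176; 9 / 44, -27 / 176, 27 / 88] : Matrix (Fin 3) (Fin 3) ℂ).PosSemidef :=
  psd_of _ !![1, -7 / 24, 7 / 12; 0, 1, -2; 0, 0, 1] ![27 / 77, 3 / 64, 0]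
    (fun i => by fin_cases i <;> simp <;> norm_num)
    (by
      ext i j
      fin_cases i <;> fin_cases j <;>
        simp [Matrix.mul_apply, Fin.sum_univ_three, Matrix.diagonal, map_ofNat] <;> norm_num)
lemma psdT3 : (!![81 / 2, 0, 0; 0, 9 / 2, -9; 0, -9, 18] : Matrix (Fin 3) (Fin 3) ℂ).PosSemidef :=
  psd_of _ !![1, 0, 0; 0, 1, -2; 0, 0, 1] ![81 / 2, 9 / 2, 0]
    (fun i => by fin_cases i <;> simp <;> norm_num)
    (by
      ext i j
      fin_cases i <;> fin_cases j <;>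
        simp [Matrix.mul_apply, Fin.sum_univ_three, Matrix.diagonal, map_ofNat] <;> norm_num)
lemma psdS3 : (!![3249 / 98, 684 / 49, -342 / 49; 684 / 49, 1017 / 98, 297 / 49; -342 / 49, 297 / 49, 954 / 49] : Matrix (Fin 3) (Fin 3) ℂ).PosSemidef :=
  psd_of _ !![1, 8 / 19, -4 / 19; 0, 1, 2; 0, 0, 1] ![3249 / 98, 9 / 2, 0]
    (fun i => by fin_cases i <;> simp <;> norm_num)
    (by
      ext i j
      fin_cases i <;> fin_cases j <;>
        simp [Matrix.mul_apply, Fin.sum_univ_three, Matrix.diagonal, map_ofNat] <;> norm_num)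
lemma psdG3 : (!![11752039 / 392, -1467087 / 49, 3769107 / 98; -1467087 / 49, 14952927 / 392, -9033233 / 196; 3769107 / 98, -9033233 / 196, 5606907 / 98] : Matrix (Fin 3) (Fin 3) ℂ).PosSemidef :=
  psd_of _ !![1, -11736696 / 11752039, 15076428 / 11752039; 0, 1, -721844098414 / 775047923913; 0, 0, 1] ![11752039 / 392, 775047923913 / 94016312, 560129086195600 / 775047923913]
    (fun i => by fin_cases i <;> simp <;> norm_num)
    (by
      ext i j
      fin_cases i <;> fin_cases j <;>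
        simp [Matrix.mul_apply, Fin.sum_univ_three, Matrix.diagonal, map_ofNat] <;> norm_num)
lemma case3 : ∃ A B : Matrix (Fin 3) (Fin 3) ℂ, A.PosSemidef ∧ B.PosSemidef ∧
    ¬ Maj (lam (A ^ 2 + absM (B * A) ^ ((3 : ℕ) : ℝ))) (lam (A ^ 2 + absM (A * B) ^ ((3 : ℕ) : ℝ))) := by
  refine ⟨_, _, psdA, psdB3, not_maj _ _ _ _ 3 124000 ![-10, 6, 9] psdA psdS3 psdT3 ?_ ?_ ?_ ?_⟩
  · ext i j
    fin_cases i <;> fin_cases j <;>
      simp [Matrix.mul_apply, Fin.sum_univ_three, map_ofNat] <;> norm_num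
  · ext i j
    fin_cases i <;> fin_cases j <;>
      simp [Matrix.mul_apply, Fin.sum_univ_three, map_ofNat] <;> norm_num
  · convert psdG3 using 1
    ext i j
    fin_cases i <;> fin_cases j <;>
      simp [pow_succ, Matrix.mul_apply, Fin.sum_univ_three, Matrix.one_apply] <;> norm_num
  · simp [pow_succ, Matrix.mul_apply, Fin.sum_univ_three, Matrix.mulVec, dotProduct,
      Matrix.one_apply]
    norm_num

lemma psdB4 : (!![3 / 22, -7 / 176, 7 / 88; -7 / 176, 21 / 704, -21 / 352; 7 / 88, -21 / 352, 21 / 176] : Matrix (Fin 3) (Fin 3) ℂ).PosSemidef :=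
  psd_of _ !![1, -7 / 24, 7 / 12; 0, 1, -2; 0, 0, 1] ![3 / 22, 7 / 384, 0]
    (fun i => by fin_cases i <;> simp <;> norm_num)
    (by
      ext i j
      fin_cases i <;> fin_cases j <;>
        simp [Matrix.mul_apply, Fin.sum_univ_three, Matrix.diagonal, map_ofNat] <;> norm_num)
lemma psdT4 : (!![63 / 4, 0, 0; 0, 7 / 4, -7 / 2; 0, -7 / 2, 7] : Matrix (Fin 3) (Fin 3) ℂ).PosSemidef :=
  psd_of _ !![1, 0, 0; 0, 1, -2; 0, 0, 1] ![63 / 4, 7 / 4, 0]
    (fun i => by fin_cases i <;> simp <;> norm_num)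
    (by
      ext i j
      fin_cases i <;> fin_cases j <;>
        simp [Matrix.mul_apply, Fin.sum_univ_three, Matrix.diagonal, map_ofNat] <;> norm_num)
lemma psdS4 : (!![361 / 28, 38 / 7, -19 / 7; 38 / 7, 113 / 28, 33 / 14; -19 / 7, 33 / 14, 53 / 7] : Matrix (Fin 3) (Fin 3) ℂ).PosSemidef :=
  psd_of _ !![1, 8 / 19, -4 / 19; 0, 1, 2; 0, 0, 1] ![361 / 28, 7 / 4, 0]
    (fun i => by fin_cases i <;> simp <;> norm_num)
    (by
      ext i j
      fin_cases i <;> fin_cases j <;>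
        simp [Matrix.mul_apply, Fin.sum_univ_three, Matrix.diagonal, map_ofNat] <;> norm_num)
lemma psdG4 : (!![7676623 / 256, -904107 / 32, 2407467 / 64; -904107 / 32, 9206115 / 256, -5661645 / 128; 2407467 / 64, -5661645 / 128, 3700095 / 64] : Matrix (Fin 3) (Fin 3) ℂ).PosSemidef :=
  psd_of _ !![1, -7232856 / 7676623, 9629868 / 7676623; 0, 1, -5757726635554 / 6119222744303; 0, 0, 1] ![7676623 / 256, 18357668232909 / 1965215488, 14416184654442000 / 6119222744303]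
    (fun i => by fin_cases i <;> simp <;> norm_num)
    (by
      ext i j
      fin_cases i <;> fin_cases j <;>
        simp [Matrix.mul_apply, Fin.sum_univ_three, Matrix.diagonal, map_ofNat] <;> norm_num)
lemma case4 : ∃ A B : Matrix (Fin 3) (Fin 3) ℂ, A.PosSemidef ∧ B.PosSemidef ∧
    ¬ Maj (lam (A ^ 2 + absM (B * A) ^ ((4 : ℕ) : ℝ))) (lam (A ^ 2 + absM (A * B) ^ ((4 : ℕ) : ℝ))) := by
  refine ⟨_, _, psdA, psdB4, not_maj _ _ _ _ 4 120000 ![-10, 8, 10] psdA psdS4 psdT4 ?_ ?_ ?_ ?_⟩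
  · ext i j
    fin_cases i <;> fin_cases j <;>
      simp [Matrix.mul_apply, Fin.sum_univ_three, map_ofNat] <;> norm_num
  · ext i j
    fin_cases i <;> fin_cases j <;>
      simp [Matrix.mul_apply, Fin.sum_univ_three, map_ofNat] <;> norm_num
  · convert psdG4 using 1
    ext i j
    fin_cases i <;> fin_cases j <;>
      simp [pow_succ, Matrix.mul_apply, Fin.sum_univ_three, Matrix.one_apply] <;> norm_num
  · simp [pow_succ, Matrix.mul_apply, Fin.sum_univ_three, Matrix.mulVec, dotProduct,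
      Matrix.one_apply]
    norm_num

/-- The majorization fails for `3 × 3` matrices, both for `p = 3` and for `p = 4`. -/
theorem result : ∀ p : ℝ, p = 3 ∨ p = 4 →
    ∃ A B : Matrix (Fin 3) (Fin 3) ℂ, A.PosSemidef ∧ B.PosSemidef ∧
      ¬ Maj (lam (A ^ 2 + absM (B * A) ^ p)) (lam (A ^ 2 + absM (A * B) ^ p)) := by
  rintro p (rfl | rfl)
  · exact_mod_cast case3
  · exact_mod_cast case4

end Pool.Agent.Results.MP_26c808_an.Counter
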